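import Pool.Agent.V1184.CR.Final

set_option autoImplicit false

open MeasureTheory ProbabilityTheory Filter Topology Matrix
open Pool.Agent.V1184.CR

namespace Pool.Agent.Results.MP_ca614b_pr.GThreeNegligible

/-- The statement of Q1: there is a function `s = s(θ, κ₀, κ₁, κ₂; m₁, m₂, a₀, a₁, a₂)` such that
for all laws with finite eighth moments, variances `θ` (all positive) and fourth moments `κ`, and
all coefficient sequences with `|a₀| + ‖a₁‖ + ‖a₂‖ ≤ C`, one has `g₃ = s + o(1/m_*)` as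
`m_* = min(m₁, m₂) → ∞`. -/
def Q1 : Prop :=
  ∃ s : (Fin 3 → ℝ) → (Fin 3 → ℝ) → (m₁ m₂ : ℕ) → ℝ → (Fin m₁ → ℝ) → (Fin m₂ → ℝ) → ℝ,
    ∀ (θ κ : Fin 3 → ℝ) (F : Fin 3 → Measure ℝ), Laws F θ κ →
    ∀ (μ C : ℝ) (m₁ m₂ : ℕ → ℕ) (a₀ : ℕ → ℝ) (a₁ : ∀ n, Fin (m₁ n) → ℝ)
      (a₂ : ∀ n, Fin (m₂ n) → ℝ),
      Tendsto (fun n => min (m₁ n) (m₂ n)) atTop atTop →
      (∀ n, |a₀ n| + enorm2 (a₁ n) + enorm2 (a₂ n) ≤ C) →
      Tendsto (fun n => ((min (m₁ n) (m₂ n) : ℕ) : ℝ) *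
        |g3 (m₁ n) (m₂ n) F μ θ (a₀ n) (a₁ n) (a₂ n) -
          s θ κ (m₁ n) (m₂ n) (a₀ n) (a₁ n) (a₂ n)|) atTop (𝓝 0)

/-- `g₃ = O(m_*^{-2})`, uniformly in the coefficients: for all laws and every `C` there is `K`
with `0 ≤ g₃ ≤ K / m_*²` for all `m₁, m₂ ≥ 2`. -/
def Negligible : Prop :=
  ∀ (θ κ : Fin 3 → ℝ) (F : Fin 3 → Measure ℝ), Laws F θ κ → ∀ C : ℝ, ∃ K : ℝ,
    ∀ (m₁ m₂ : ℕ), 2 ≤ m₁ → 2 ≤ m₂ → ∀ (μ a₀ : ℝ) (a₁ : Fin m₁ → ℝ) (a₂ : Fin m₂ → ℝ),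
      |a₀| + enorm2 a₁ + enorm2 a₂ ≤ C →
      0 ≤ g3 m₁ m₂ F μ θ a₀ a₁ a₂ ∧
      g3 m₁ m₂ F μ θ a₀ a₁ a₂ ≤ K / ((min m₁ m₂ : ℕ) : ℝ) ^ 2

lemma sq_le_of_enorm2 {m : ℕ} {a : Fin m → ℝ} {C : ℝ} (h : enorm2 a ≤ C) :
    ∑ i, a i ^ 2 ≤ C ^ 2 := by
  unfold enorm2 at h
  have h0 : 0 ≤ ∑ i, a i ^ 2 := Finset.sum_nonneg fun _ _ => sq_nonneg _
  calc ∑ i, a i ^ 2 = Real.sqrt (∑ i, a i ^ 2) ^ 2 := (Real.sq_sqrt h0).symm
    _ ≤ C ^ 2 := pow_le_pow_left₀ (Real.sqrt_nonneg _) h 2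

lemma M8_nonneg (F : Fin 3 → Measure ℝ) : 0 ≤ M8 F :=
  Finset.sum_nonneg fun k _ => integral_nonneg fun x => by positivity

lemma split_div (A B x y z : ℝ) : (A / x + B / y) / z = A / (x * z) + B / (y * z) := by
  rw [add_div, div_div, div_div]

lemma negligible : Negligible := by
  intro θ κ F hF C
  have t0 := hF.pos 0
  have t1 := hF.pos 1
  have t2 := hF.pos 2
  have hM := M8_nonneg F
  refine ⟨(3 * Qc θ κ ^ 2 * (2 * C ^ 2) ^ 2 +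
        (8 + 2 * (2 * (θ 0 / θ 1))) ^ 4 * (3 ^ 7 * M8 F)) / θ 1 ^ 2 +
      (3 * Qc θ κ ^ 2 * (2 * C ^ 2) ^ 2 +
        (8 + 2 * (2 * (θ 0 / θ 2))) ^ 4 * (3 ^ 7 * M8 F)) / θ 2 ^ 2, ?_⟩
  intro m₁ m₂ hm₁ hm₂ μ a₀ a₁ a₂ ha
  have hb := g3_bound hF hm₁ hm₂ μ a₀ a₁ a₂
  refine ⟨integral_nonneg fun ω => sq_nonneg _, hb.trans ?_⟩
  have e0 : 0 ≤ |a₀| := abs_nonneg _
  have e1 : 0 ≤ enorm2 a₁ := Real.sqrt_nonneg _
  have e2 : 0 ≤ enorm2 a₂ := Real.sqrt_nonneg _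
  have s1 := sq_le_of_enorm2 (a := a₁) (C := C) (by linarith)
  have s2 := sq_le_of_enorm2 (a := a₂) (C := C) (by linarith)
  have k1 : (2 : ℝ) ≤ m₁ := by exact_mod_cast hm₁
  have k2 : (2 : ℝ) ≤ m₂ := by exact_mod_cast hm₂
  have hmin : 0 < ((min m₁ m₂ : ℕ) : ℝ) := by
    have : 0 < min m₁ m₂ := by omega
    exact_mod_cast this
  have l1 : ((min m₁ m₂ : ℕ) : ℝ) ≤ m₁ := by exact_mod_cast min_le_left _ _
  have l2 : ((min m₁ m₂ : ℕ) : ℝ) ≤ m₂ := by exact_mod_cast min_le_right _ _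
  rw [split_div]
  have q1 : (2 * ∑ i, a₁ i ^ 2) ^ 2 ≤ (2 * C ^ 2) ^ 2 :=
    pow_le_pow_left₀ (by positivity) (by linarith) 2
  have q2 : (2 * ∑ i, a₂ i ^ 2) ^ 2 ≤ (2 * C ^ 2) ^ 2 :=
    pow_le_pow_left₀ (by positivity) (by linarith) 2
  refine add_le_add ?_ ?_
  · refine div_le_div₀ (by positivity) ?_ (by positivity) ?_
    · have := mul_le_mul_of_nonneg_left q1 (show 0 ≤ 3 * Qc θ κ ^ 2 by positivity)
      linarith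
    · rw [mul_pow, mul_comm]
      exact mul_le_mul_of_nonneg_right (pow_le_pow_left₀ hmin.le l2 2) (by positivity)
  · refine div_le_div₀ (by positivity) ?_ (by positivity) ?_
    · have := mul_le_mul_of_nonneg_left q2 (show 0 ≤ 3 * Qc θ κ ^ 2 by positivity)
      linarith
    · rw [mul_pow, mul_comm]
      exact mul_le_mul_of_nonneg_right (pow_le_pow_left₀ hmin.le l1 2) (by positivity)

/-- Q1 holds (with `s = 0`), and in fact `g₃ = O(m_*^{-2})`. -/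
theorem result : Q1 ∧ Negligible := by
  refine ⟨⟨fun _ _ _ _ _ _ _ => 0, ?_⟩, negligible⟩
  intro θ κ F hF μ C m₁ m₂ a₀ a₁ a₂ hlim ha
  obtain ⟨K, hK⟩ := negligible θ κ F hF C
  have h1 : Tendsto (fun n => |K| / ((min (m₁ n) (m₂ n) : ℕ) : ℝ)) atTop (𝓝 0) :=
    tendsto_const_nhds.div_atTop (tendsto_natCast_atTop_atTop.comp hlim)
  refine squeeze_zero' (Filter.Eventually.of_forall fun n => by positivity) ?_ h1
  filter_upwards [hlim.eventually_ge_atTop 2] with n hn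
  have hn1 : 2 ≤ m₁ n := le_trans hn (min_le_left _ _)
  have hn2 : 2 ≤ m₂ n := le_trans hn (min_le_right _ _)
  obtain ⟨h0, h2⟩ := hK (m₁ n) (m₂ n) hn1 hn2 μ (a₀ n) (a₁ n) (a₂ n) (ha n)
  have hpos : 0 < ((min (m₁ n) (m₂ n) : ℕ) : ℝ) := by
    have : 0 < min (m₁ n) (m₂ n) := by omega
    exact_mod_cast this
  rw [sub_zero, abs_of_nonneg h0]
  calc ((min (m₁ n) (m₂ n) : ℕ) : ℝ) * g3 (m₁ n) (m₂ n) F μ θ (a₀ n) (a₁ n) (a₂ n)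
      ≤ ((min (m₁ n) (m₂ n) : ℕ) : ℝ) * (K / ((min (m₁ n) (m₂ n) : ℕ) : ℝ) ^ 2) :=
        mul_le_mul_of_nonneg_left h2 hpos.le
    _ = K / ((min (m₁ n) (m₂ n) : ℕ) : ℝ) := by
        field_simp
    _ ≤ |K| / ((min (m₁ n) (m₂ n) : ℕ) : ℝ) :=
        div_le_div_of_nonneg_right (le_abs_self K) hpos.le

end Pool.Agent.Results.MP_ca614b_pr.GThreeNegligible
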